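import Mathlib

/-!
# A strictly additive Steiner 2-design that is not regular

We construct a `2-(64,4,1)` design which is strictly additive under the elementary abelian group
of order `64`, but which is not regular under this group (its automorphism group is not even
transitive on points).

The design is obtained from the point-line design of `AG(3,4)`: inside one plane (16 points) the
`20` lines are replaced by the `20` lines of another affine plane of order `4` on the same point
set, whose lines are again affine planes over the field with two elements.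
-/

namespace Pool.Agent.Results.MP_6c2242_co.StrictNotRegular

/-- `(V, ℬ)` is a Steiner `2`-design `2-(v,k,1)` with `v = |V|`: blocks are `k`-subsets,
`2 ≤ k ≤ v`, and any two distinct points lie in exactly one block. -/
structure IsSteinerDesign (V : Type*) [Fintype V] (k : ℕ) (ℬ : Set (Finset V)) : Prop where
  two_le : 2 ≤ k
  le_card : k ≤ Fintype.card V
  card_block : ∀ B ∈ ℬ, B.card = k
  pair : ∀ x y : V, x ≠ y → ∃! B : Finset V, B ∈ ℬ ∧ x ∈ B ∧ y ∈ B

/-- `(V, ℬ)` is strictly `G`-additive: there is a bijection `V → G` mapping every block to a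
zero-sum subset. -/
def StrictlyAdditive (G : Type*) [AddCommGroup G] {V : Type*} (ℬ : Set (Finset V)) : Prop :=
  ∃ f : V ≃ G, ∀ B ∈ ℬ, ∑ b ∈ B, f b = 0

/-- A permutation `φ` of the points is an automorphism of `(V, ℬ)` if a set is a block exactly
when its image is a block. -/
def IsAutomorphism {V : Type*} (ℬ : Set (Finset V)) (φ : Equiv.Perm V) : Prop :=
  ∀ B : Finset V, B.map φ.toEmbedding ∈ ℬ ↔ B ∈ ℬ

/-- `(V, ℬ)` is `G`-regular: `G` acts faithfully on `V` by automorphisms of the design (that is,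
the automorphism group has a subgroup isomorphic to `G`) and the action is sharply transitive. -/
def Regular (G : Type*) [AddCommGroup G] {V : Type*} (ℬ : Set (Finset V)) : Prop :=
  ∃ ρ : Multiplicative G →* Equiv.Perm V,
    Function.Injective ρ ∧ (∀ g, IsAutomorphism ℬ (ρ g)) ∧
      ∀ x y : V, ∃! g : Multiplicative G, ρ g x = y

/-! ### The construction -/

/-- multiplication by a primitive element of the field with four elements on 6-bit vectors -/
def w1 (p : ℕ) : ℕ :=
  (((p &&& 21) ^^^ ((p >>> 1) &&& 21)) <<< 1) ||| ((p >>> 1) &&& 21)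

/-- another multiplication by a primitive element, on 4-bit vectors -/
def w2 (p : ℕ) : ℕ :=
  (((p &&& 3) ^^^ ((p >>> 2) &&& 3)) <<< 2) ||| ((p >>> 2) &&& 3)

/-- third point on the line through `x` and `y` -/
def tN (x y : ℕ) : ℕ :=
  if x < 16 ∧ y < 16 then x ^^^ w2 (x ^^^ y) else x ^^^ w1 (x ^^^ y)

/-- third point on the line through `x` and `y` -/
def t (x y : Fin 64) : Fin 64 := ⟨tN x.1 y.1 % 64, Nat.mod_lt _ (by norm_num)⟩

theorem t_ids : ∀ x y : Fin 64,
    t x (t x y) = t y x ∧ t (t x y) x = y ∧ t x (t y x) = y ∧ t (t y x) x = t x y ∧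
    t (t x y) (t y x) = x := by
  decide +kernel

theorem t_ne : ∀ x y : Fin 64, x ≠ y → t x y ≠ x ∧ t x y ≠ y ∧ t x y ≠ t y x := by
  decide +kernel

/-- The line through `x` and `y`. -/
def blk (x y : Fin 64) : Finset (Fin 64) := {x, y, t x y, t y x}

/-- The blocks. -/
def blocks : Set (Finset (Fin 64)) := {B | ∃ x y, x ≠ y ∧ B = blk x y}

theorem blk_comm (x y : Fin 64) : blk x y = blk y x := by
  ext z; simp only [blk, Finset.mem_insert, Finset.mem_singleton]; tauto

theorem blk_step (x y : Fin 64) : blk x (t x y) = blk x y := by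
  obtain ⟨h1, h2, -, -, -⟩ := t_ids x y
  ext z; simp only [blk, Finset.mem_insert, Finset.mem_singleton, h1, h2]; tauto

theorem blk_step' (x y : Fin 64) : blk x (t y x) = blk x y := by
  obtain ⟨-, -, h3, h4, -⟩ := t_ids x y
  ext z; simp only [blk, Finset.mem_insert, Finset.mem_singleton, h3, h4]; tauto

theorem blk_step'' (x y : Fin 64) : blk (t x y) (t y x) = blk x y := by
  have h5 := (t_ids x y).2.2.2.2
  have h6 := (t_ids y x).2.2.2.2
  ext z; simp only [blk, Finset.mem_insert, Finset.mem_singleton, h5, h6]; tauto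

theorem blk_eq {x y u v : Fin 64} (hu : u ∈ blk x y) (hv : v ∈ blk x y) (huv : u ≠ v) :
    blk u v = blk x y := by
  simp only [blk, Finset.mem_insert, Finset.mem_singleton] at hu hv
  rcases hu with rfl | rfl | rfl | rfl <;> rcases hv with rfl | rfl | rfl | rfl
  · exact absurd rfl huv
  · rfl
  · exact blk_step _ _
  · exact blk_step' _ _
  · exact blk_comm _ _
  · exact absurd rfl huv
  · rw [blk_step', blk_comm]
  · rw [blk_step, blk_comm]
  · rw [blk_comm, blk_step]
  · rw [blk_comm, blk_step', blk_comm]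
  · exact absurd rfl huv
  · exact blk_step'' _ _
  · rw [blk_comm, blk_step']
  · rw [blk_comm, blk_step, blk_comm]
  · rw [blk_comm, blk_step'']
  · exact absurd rfl huv

theorem left_mem (x y : Fin 64) : x ∈ blk x y := by simp [blk]
theorem right_mem (x y : Fin 64) : y ∈ blk x y := by simp [blk]

theorem card_blk {x y : Fin 64} (h : x ≠ y) : (blk x y).card = 4 := by
  obtain ⟨h1, h2, h3⟩ := t_ne x y h
  obtain ⟨h4, h5, -⟩ := t_ne y x h.symm
  unfold blk
  rw [Finset.card_insert_of_notMem, Finset.card_insert_of_notMem, Finset.card_insert_of_notMem,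
    Finset.card_singleton]
  · simpa using h3
  · simp only [Finset.mem_insert, Finset.mem_singleton, not_or]
    exact ⟨h2.symm, h4.symm⟩
  · simp only [Finset.mem_insert, Finset.mem_singleton, not_or]
    exact ⟨h, h1.symm, h5.symm⟩

theorem isSteiner : IsSteinerDesign (Fin 64) 4 blocks where
  two_le := by norm_num
  le_card := by simp
  card_block := by
    rintro B ⟨x, y, h, rfl⟩
    exact card_blk h
  pair := by
    intro x y h
    refine ⟨blk x y, ⟨⟨x, y, h, rfl⟩, left_mem x y, right_mem x y⟩, ?_⟩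
    rintro B ⟨⟨u, v, huv, rfl⟩, hx, hy⟩
    exact (blk_eq hx hy h).symm

/-! ### Strict additivity -/

/-- bits -/
def fb (x : Fin 64) : Fin 6 → ZMod 2 := fun i => if x.1.testBit i.1 then 1 else 0

theorem fb_inj : ∀ x y : Fin 64, fb x = fb y → x = y := by decide +kernel

theorem fb_sum : ∀ x y : Fin 64, fb x + (fb y + (fb (t x y) + fb (t y x))) = 0 := by
  decide +kernel

/-- the bijection -/
noncomputable def fe : Fin 64 ≃ (Fin 6 → ZMod 2) :=
  Equiv.ofBijective fb ((Fintype.bijective_iff_injective_and_card fb).2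
    ⟨fun x y h => fb_inj x y h, by simp [ZMod.card]⟩)

theorem strictlyAdditive : StrictlyAdditive (Fin 6 → ZMod 2) blocks := by
  refine ⟨fe, ?_⟩
  rintro B ⟨x, y, h, rfl⟩
  obtain ⟨h1, h2, h3⟩ := t_ne x y h
  obtain ⟨h4, h5, -⟩ := t_ne y x h.symm
  unfold blk
  rw [Finset.sum_insert, Finset.sum_insert, Finset.sum_insert, Finset.sum_singleton]
  · exact fb_sum x y
  · simpa using h3
  · simp only [Finset.mem_insert, Finset.mem_singleton, not_or]
    exact ⟨h2.symm, h4.symm⟩
  · simp only [Finset.mem_insert, Finset.mem_singleton, not_or]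
    exact ⟨h, h1.symm, h5.symm⟩

/-! ### The automorphism group is not transitive on points -/

/-- the points of the line through `p` and `u` different from `p` -/
def others (p u : Fin 64) : List (Fin 64) := [u, t p u, t u p]

/-- do the lines `xy` and `x'y'` meet? -/
def share (x y x' y' : Fin 64) : Bool :=
  [x, y, t x y, t y x].any fun z => [x', y', t x' y', t y' x'].any fun z' => z == z'

/-- is there a Pasch configuration on the lines `pu` and `pv`? -/
def pasch (p u v : Fin 64) : Bool :=
  (others p u).any fun x => (others p u).any fun x' => !(x == x') &&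
    ((others p v).any fun y => (others p v).any fun y' => !(y == y') && share x y x' y')

theorem pasch_16 : ∀ u v : Fin 64, u ≠ 16 → v ≠ 16 → v ∉ others 16 u → pasch 16 u v = true := by
  decide +kernel

theorem pasch_0 : pasch 0 1 16 = false := by decide +kernel

theorem mem_others {p u x : Fin 64} (h : u ≠ p) : x ∈ others p u ↔ x ∈ blk p u ∧ x ≠ p := by
  have h1 := (t_ne p u h.symm).1
  have h2 := (t_ne u p h).2.1
  simp only [others, blk, List.mem_cons, List.not_mem_nil, or_false, Finset.mem_insert,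
    Finset.mem_singleton]
  constructor
  · rintro (rfl | rfl | rfl)
    · exact ⟨by simp, h⟩
    · exact ⟨by simp, h1⟩
    · exact ⟨by simp, h2⟩
  · rintro ⟨h3, h4⟩
    tauto

theorem share_iff {x y x' y' : Fin 64} :
    share x y x' y' = true ↔ ∃ z, z ∈ blk x y ∧ z ∈ blk x' y' := by
  simp only [share, blk, List.any_eq_true, List.mem_cons, List.not_mem_nil, or_false,
    Finset.mem_insert, Finset.mem_singleton, beq_iff_eq]
  constructor
  · rintro ⟨z, hz, z', hz', rfl⟩
    exact ⟨z, hz, hz'⟩
  · rintro ⟨z, hz, hz'⟩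
    exact ⟨z, hz, z, hz', rfl⟩

theorem pasch_iff {p u v : Fin 64} (hu : u ≠ p) (hv : v ≠ p) :
    pasch p u v = true ↔ ∃ x x' y y' z, (x ∈ blk p u ∧ x ≠ p) ∧ (x' ∈ blk p u ∧ x' ≠ p) ∧ x ≠ x' ∧
      (y ∈ blk p v ∧ y ≠ p) ∧ (y' ∈ blk p v ∧ y' ≠ p) ∧ y ≠ y' ∧ z ∈ blk x y ∧ z ∈ blk x' y' := by
  simp only [pasch, List.any_eq_true, mem_others hu, mem_others hv, Bool.and_eq_true,
    Bool.not_eq_true', beq_eq_false_iff_ne, share_iff]
  constructor
  · rintro ⟨x, hx, x', hx', hxx, y, hy, y', hy', hyy, z, hz, hz'⟩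
    exact ⟨x, x', y, y', z, hx, hx', hxx, hy, hy', hyy, hz, hz'⟩
  · rintro ⟨x, x', y, y', z, hx, hx', hxx, hy, hy', hyy, hz, hz'⟩
    exact ⟨x, hx, x', hx', hxx, y, hy, y', hy', hyy, z, hz, hz'⟩

theorem map_blk {φ : Equiv.Perm (Fin 64)} (hφ : IsAutomorphism blocks φ) {x y : Fin 64}
    (h : x ≠ y) : (blk x y).map φ.toEmbedding = blk (φ x) (φ y) := by
  obtain ⟨a, b, hab, h1⟩ : (blk x y).map φ.toEmbedding ∈ blocks := (hφ _).2 ⟨x, y, h, rfl⟩
  rw [h1]
  refine (blk_eq ?_ ?_ (fun h' => h (φ.injective h'))).symm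
  · rw [← h1]; exact Finset.mem_map_of_mem φ.toEmbedding (left_mem x y)
  · rw [← h1]; exact Finset.mem_map_of_mem φ.toEmbedding (right_mem x y)

theorem mem_map_blk {φ : Equiv.Perm (Fin 64)} (hφ : IsAutomorphism blocks φ) {x y z : Fin 64}
    (h : x ≠ y) : φ z ∈ blk (φ x) (φ y) ↔ z ∈ blk x y := by
  rw [← map_blk hφ h]
  constructor
  · intro h1
    obtain ⟨w, hw, hw'⟩ := Finset.mem_map.1 h1
    have : w = z := φ.injective hw'
    exact this ▸ hw
  · intro h1
    exact Finset.mem_map_of_mem φ.toEmbedding h1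

theorem no_auto {φ : Equiv.Perm (Fin 64)} (hφ : IsAutomorphism blocks φ) : φ 16 ≠ 0 := by
  intro h0
  set u := φ.symm 1 with hu
  set v := φ.symm 16 with hv
  have hu1 : φ u = 1 := by simp [hu]
  have hv1 : φ v = 16 := by simp [hv]
  have hu16 : u ≠ 16 := by
    intro h; rw [h, h0] at hu1; exact absurd hu1 (by decide)
  have hv16 : v ≠ 16 := by
    intro h; rw [h, h0] at hv1; exact absurd hv1 (by decide)
  have hvu : v ∉ blk 16 u := by
    intro h
    have h2 := (mem_map_blk hφ (Ne.symm hu16)).2 h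
    rw [h0, hu1, hv1] at h2
    exact absurd h2 (by decide +kernel)
  have h3 : pasch 16 u v = true := by
    apply pasch_16 u v hu16 hv16
    rw [mem_others hu16]
    exact fun h => hvu h.1
  rw [pasch_iff hu16 hv16] at h3
  obtain ⟨x, x', y, y', z, hx, hx', hxx, hy, hy', hyy, hz, hz'⟩ := h3
  have key : ∀ a b : Fin 64, a ∈ blk 16 u ∧ a ≠ 16 → b ∈ blk 16 v ∧ b ≠ 16 → a ≠ b := by
    rintro a b ⟨ha, ha'⟩ ⟨hb, -⟩ rfl
    have h4 : blk 16 a = blk 16 u := blk_eq (left_mem _ _) ha (Ne.symm ha')
    have h5 : blk 16 a = blk 16 v := blk_eq (left_mem _ _) hb (Ne.symm ha')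
    apply hvu
    rw [← h4, h5]
    exact right_mem _ _
  have h6 : pasch 0 1 16 = true := by
    rw [pasch_iff (by decide) (by decide)]
    have hu' := hu16.symm
    have hv' := hv16.symm
    refine ⟨φ x, φ x', φ y, φ y', φ z, ⟨?_, ?_⟩, ⟨?_, ?_⟩, ?_, ⟨?_, ?_⟩, ⟨?_, ?_⟩, ?_, ?_, ?_⟩
    · rw [← h0, ← hu1, mem_map_blk hφ hu']; exact hx.1
    · rw [← h0]; exact fun h => hx.2 (φ.injective h)
    · rw [← h0, ← hu1, mem_map_blk hφ hu']; exact hx'.1
    · rw [← h0]; exact fun h => hx'.2 (φ.injective h)
    · exact fun h => hxx (φ.injective h)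
    · have h7 := (mem_map_blk hφ hv').2 hy.1
      rwa [h0, hv1] at h7
    · rw [← h0]; exact fun h => hy.2 (φ.injective h)
    · have h7 := (mem_map_blk hφ hv').2 hy'.1
      rwa [h0, hv1] at h7
    · rw [← h0]; exact fun h => hy'.2 (φ.injective h)
    · exact fun h => hyy (φ.injective h)
    · rw [mem_map_blk hφ (key x y hx hy)]; exact hz
    · rw [mem_map_blk hφ (key x' y' hx' hy')]; exact hz'
  rw [pasch_0] at h6
  exact absurd h6 (by decide)

/-- **Main result.** There are a finite abelian group `G` and a Steiner `2`-design which is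
strictly `G`-additive but not `G`-regular. -/
theorem result :
    ∃ (G : Type) (_ : AddCommGroup G) (_ : Finite G) (V : Type) (_ : Fintype V) (k : ℕ)
      (ℬ : Set (Finset V)), IsSteinerDesign V k ℬ ∧ StrictlyAdditive G ℬ ∧ ¬ Regular G ℬ := by
  refine ⟨Fin 6 → ZMod 2, inferInstance, inferInstance, Fin 64, inferInstance, 4, blocks,
    isSteiner, strictlyAdditive, ?_⟩
  rintro ⟨ρ, -, hρ, htr⟩
  obtain ⟨g, hg, -⟩ := htr 16 0
  exact no_auto (hρ g) hg

end Pool.Agent.Results.MP_6c2242_co.StrictNotRegular
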